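import Mathlib
import Pool.Agent.SystolicTorus.Defs
import Pool.Agent.SystolicTorus.Flat
import Pool.Agent.SystolicTorus.Numeric

/-!
# Flat metrics are not systolically optimal on the three-dimensional torus

We exhibit a smooth (non-flat) Riemannian metric on `T³` whose systolic ratio `Vol / Sys³` is
strictly smaller than that of every flat metric on `T³`.

The metric is `T²`-invariant.  In the coordinates `(t, X, Y)` with `T³ = ℝ³ / Λ`,
`Λ = {(m W, X, Y) : m, X, Y ∈ ℤ, m + X + Y even}`, it is
`dt² + (1 + sin θ(t))/2 dX² + (1 - sin θ(t))/2 dY²`, where `θ` is a smoothed trapezoidal wave of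
period `W = 0.781` with values in `[-π/6, π/6]` and slopes of absolute value at most `2π`.
For constant `θ = 0` and `W = 1/√2` this is the optimal flat torus (face-centred cubic lattice);
for `θ = ±π/6` the slices are hexagonal flat tori, and in the regions of slope `±2π` the metric
is locally that of the round real projective space of systole one.
-/

open Matrix Real

namespace Pool.Agent.Results.MP_b75b84_gt.TorusThree

open Pool.Agent.SystolicTorus

/-- **Disproof of the optimality of flat metrics on `T³`.**  There is a smooth Riemannian metric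
`g` on `T³ = ℝ³/ℤ³` with homotopic systole at least `1` and volume at most `0.7063`, hence with
systolic ratio at most `0.7063 < 1/√2`, whereas every flat metric on `T³` has systolic ratio
at least `1/√2`.  In particular the systolic ratio of `g` is strictly smaller than the one of
every flat metric. -/
theorem result :
    ∃ g : TorusMetric 3,
      1 ≤ g.systole ∧ g.vol ≤ 7063 / 10000 ∧ g.systolicRatio ≤ 7063 / 10000 ∧
      (7063 / 10000 : ℝ) < 1 / √2 ∧
      (∀ (A : Matrix (Fin 3) (Fin 3) ℝ) (hA : A.PosDef),
        1 / √2 ≤ (TorusMetric.flat A hA).systolicRatio) ∧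
      (∀ (A : Matrix (Fin 3) (Fin 3) ℝ) (hA : A.PosDef),
        g.systolicRatio < (TorusMetric.flat A hA).systolicRatio) := by
  obtain ⟨Θ, hprof, hX, hY, hvol⟩ := exists_profile
  have hsys : 1 ≤ hprof.metric.systole :=
    hprof.one_le_systole (by norm_num) (by norm_num) hX hY
  have hv : hprof.metric.vol ≤ 7063 / 10000 := by
    rw [hprof.vol_eq]; exact hvol
  have hratio : hprof.metric.systolicRatio ≤ 7063 / 10000 := by
    unfold TorusMetric.systolicRatio
    rw [div_le_iff₀ (by positivity)]
    have h3 : (1 : ℝ) ≤ hprof.metric.systole ^ 3 := one_le_pow₀ hsys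
    linarith
  have hnum : (7063 / 10000 : ℝ) < 1 / √2 := by
    have h2 : √2 < 1.4143 := by
      rw [Real.sqrt_lt' (by norm_num)]; norm_num
    rw [lt_div_iff₀ (by positivity)]
    norm_num at h2 ⊢
    linarith
  refine ⟨hprof.metric, hsys, hv, hratio, hnum, fun A hA => TorusMetric.ratio_flat_ge A hA,
    fun A hA => ?_⟩
  exact lt_of_le_of_lt hratio (lt_of_lt_of_le hnum (TorusMetric.ratio_flat_ge A hA))

end Pool.Agent.Results.MP_b75b84_gt.TorusThree
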